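import Mathlib

set_option autoImplicit false

namespace Pool.Agent.H411R2.Cyc

/-! ### Colours of indices -/

/-- The lower colour of the index `v` at the level `t`. -/
def lo {J : ℕ} (t : Fin J × Fin 2) (v : ℕ) : ℕ := v / 2 ^ t.1.val

/-- The upper colour of the index `v` at the level `t`. -/
def up {J : ℕ} (t : Fin J × Fin 2) (v : ℕ) : ℕ := v / 2 ^ t.1.val + (t.2.val + 2)

lemma meet_aux (J : ℕ) : ∀ u v : ℕ, v < 2 ^ J → u + 2 ≤ v →
    ∃ t, t < J ∧ ∃ κ, κ < 2 ∧ v / 2 ^ t = u / 2 ^ t + (κ + 2) := by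
  induction J with
  | zero => intro u v h1 h2; simp at h1; omega
  | succ J ih =>
    intro u v h1 h2
    by_cases h : v ≤ u + 3
    · exact ⟨0, by omega, v - u - 2, by omega, by simp; omega⟩
    · obtain ⟨t, ht, κ, hκ, e⟩ := ih (u / 2) (v / 2) (by rw [pow_succ] at h1; omega) (by omega)
      refine ⟨t + 1, by omega, κ, hκ, ?_⟩
      rw [pow_succ', ← Nat.div_div_eq_div_mul, ← Nat.div_div_eq_div_mul]
      exact e

lemma meet {J u v : ℕ} (hv : v < 2 ^ J) (h : u + 2 ≤ v) :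
    ∃ t : Fin J × Fin 2, up t u = lo t v := by
  obtain ⟨t, ht, κ, hκ, e⟩ := meet_aux J u v hv h
  exact ⟨(⟨t, ht⟩, ⟨κ, hκ⟩), e.symm⟩

lemma not_meet {J u v : ℕ} (h : v ≤ u + 1) (t : Fin J × Fin 2) : up t u ≠ lo t v := by
  unfold up lo
  have h1 : v / 2 ^ t.1.val ≤ (u + 1) / 2 ^ t.1.val := Nat.div_le_div_right h
  have h2 : (u + 1) / 2 ^ t.1.val ≤ u / 2 ^ t.1.val + 1 := by
    have hp : 0 < 2 ^ t.1.val := by positivity
    rw [Nat.div_le_iff_le_mul_add_pred hp]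
    have := Nat.div_add_mod u (2 ^ t.1.val)
    have h3 := Nat.mod_lt u hp
    rw [mul_add, mul_one]
    omega
  omega

lemma up_le {J v Y : ℕ} (h : v ≤ Y) (t : Fin J × Fin 2) : up t v ≤ Y + 3 := by
  unfold up
  have h1 : v / 2 ^ t.1.val ≤ v := Nat.div_le_self _ _
  have := t.2.isLt
  omega

lemma lo_le {J v Y : ℕ} (h : v ≤ Y) (t : Fin J × Fin 2) : lo t v ≤ Y + 3 := by
  unfold lo
  have h1 : v / 2 ^ t.1.val ≤ v := Nat.div_le_self _ _
  omega

/-! ### The good residues -/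

/-- The multiple `D z` of the residue `z` is never small, for small nonzero `D`. -/
def Good (P Y : ℕ) (z : ZMod P) : Prop :=
  ∀ D v : ℤ, D ≠ 0 → |D| ≤ Y + 3 → |v| ≤ Y → (D : ZMod P) * z ≠ (v : ZMod P)

lemma exists_good (P Y : ℕ) [Fact P.Prime] (hP : Y + 3 < P) :
    ∃ S : Finset (ZMod P), (∀ z ∈ S, Good P Y z) ∧ P ≤ S.card + (Y + 3) * (2 * Y + 1) := by
  classical
  let B : Finset (ZMod P) := (Finset.Icc (1 : ℤ) (Y + 3) ×ˢ Finset.Icc (-(Y : ℤ)) Y).image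
    (fun p => (p.2 : ZMod P) * (p.1 : ZMod P)⁻¹)
  have hne : ∀ D : ℤ, 1 ≤ D → D ≤ Y + 3 → (D : ZMod P) ≠ 0 := by
    intro D h1 h2 h3
    rw [ZMod.intCast_zmod_eq_zero_iff_dvd] at h3
    have := Int.le_of_dvd (by omega) h3
    omega
  have hmem : ∀ z : ZMod P, ∀ D v : ℤ, 1 ≤ D → D ≤ Y + 3 → |v| ≤ Y →
      (D : ZMod P) * z = (v : ZMod P) → z ∈ B := by
    intro z D v h1 h2 h3 h4
    refine Finset.mem_image.2 ⟨(D, v), ?_, ?_⟩
    · rw [abs_le] at h3
      simp only [Finset.mem_product, Finset.mem_Icc]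
      exact ⟨⟨h1, h2⟩, h3.1, h3.2⟩
    · simp only
      rw [← h4, mul_comm, ← mul_assoc, inv_mul_cancel₀ (hne D h1 h2), one_mul]
  refine ⟨Finset.univ \ B, ?_, ?_⟩
  · intro z hz D v hD hD' hv e
    have hz' : z ∉ B := (Finset.mem_sdiff.1 hz).2
    rw [abs_le] at hD'
    rcases lt_or_gt_of_ne hD with h | h
    · refine hz' (hmem z (-D) (-v) (by omega) (by omega) (by rwa [abs_neg]) ?_)
      push_cast
      rw [neg_mul, e]
    · exact hz' (hmem z D v (by omega) (by omega) hv e)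
  · have h1 : (Finset.univ \ B).card = P - B.card := by
      rw [Finset.card_sdiff_of_subset (Finset.subset_univ _), Finset.card_univ, ZMod.card]
    have h2 : B.card ≤ (Y + 3) * (2 * Y + 1) := by
      refine Finset.card_image_le.trans ?_
      rw [Finset.card_product, Int.card_Icc, Int.card_Icc]
      apply Nat.mul_le_mul
      · omega
      · omega
    omega

/-! ### Decoding -/

lemma cast_ne {P Y a b : ℕ} (hP : Y + 3 < P) (ha : a ≤ Y + 3) (hb : b ≤ Y + 3) (h : a ≠ b) :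
    (a : ZMod P) ≠ (b : ZMod P) := by
  intro e
  rw [ZMod.natCast_eq_natCast_iff', Nat.mod_eq_of_lt (by omega), Nat.mod_eq_of_lt (by omega)] at e
  exact h e

/-- If the residue `z'` is good, then a small difference forces equal colours and indices. -/
lemma force {P Y a b y y' : ℕ} (hP : Y + 3 < P) (ha : a ≤ Y + 3) (hb : b ≤ Y + 3)
    (hy : y ≤ Y) (hy' : y' ≤ Y) {z : ZMod P} (hz : Good P Y z)
    (e : ((b : ZMod P) - (a : ZMod P)) * z + (y' : ZMod P) = (y : ZMod P)) :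
    a = b ∧ y = y' := by
  have hab : a = b := by
    by_contra hne
    refine hz ((b : ℤ) - a) ((y : ℤ) - y') (by omega) (by rw [abs_le]; omega)
      (by rw [abs_le]; omega) ?_
    push_cast
    rw [← e]
    ring
  refine ⟨hab, ?_⟩
  subst hab
  rw [sub_self, zero_mul, zero_add] at e
  by_contra hne
  exact cast_ne hP (by omega) (by omega) hne e.symm

/-- Two different colours of a pair of residues determine the pair. -/
lemma solve {P Y : ℕ} [Fact P.Prime] {a b : ℕ} (hP : Y + 3 < P) (ha : a ≤ Y + 3)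
    (hb : b ≤ Y + 3) (hab : a ≠ b) {x z x' z' : ZMod P}
    (h1 : x + (a : ZMod P) * z = x' + (a : ZMod P) * z')
    (h2 : x + (b : ZMod P) * z = x' + (b : ZMod P) * z') : x = x' ∧ z = z' := by
  have h3 : ((a : ZMod P) - b) * (z - z') = 0 := by linear_combination h1 - h2
  have h4 : (a : ZMod P) - b ≠ 0 := sub_ne_zero.2 (cast_ne hP ha hb hab)
  have h5 : z = z' := by
    rcases mul_eq_zero.1 h3 with h | h
    · exact absurd h h4
    · exact sub_eq_zero.1 h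
  subst h5
  exact ⟨by simpa using h1, rfl⟩

/-- The decoding lemma. -/
lemma decode {P Y J m₀ : ℕ} [Fact P.Prime] (hP : Y + 3 < P) (hJ : Y < 2 ^ J)
    {e₁ e₂ : ℕ → Fin J × Fin 2 → ZMod P} {e₃ : ℕ → ℕ}
    (he : ∀ f t, Good P Y (e₂ f t))
    (hinj : ∀ f f', f < m₀ → f' < m₀ → e₁ f = e₁ f' → e₂ f = e₂ f' → e₃ f = e₃ f' → f = f')
    {μ y y' f f' g g' : ℕ} (hμ : μ ≤ Y) (hy : y ≤ Y) (hy' : y' ≤ Y)
    (hf : f < m₀) (hf' : f' < m₀) (hg : g < m₀) (hg' : g' < m₀)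
    (h1 : ∀ t, e₁ g t + (up t μ : ZMod P) * e₂ g t = e₁ g' t + (up t μ : ZMod P) * e₂ g' t)
    (h2 : ∀ t, e₁ f t + (lo t μ : ZMod P) * e₂ f t = e₁ f' t + (lo t μ : ZMod P) * e₂ f' t)
    (h3 : ∀ t, e₁ g t + (lo t y : ZMod P) * e₂ g t + (y : ZMod P) =
      e₁ g' t + (lo t y' : ZMod P) * e₂ g' t + (y' : ZMod P))
    (h4 : ∀ t, e₁ f t + (up t y : ZMod P) * e₂ f t + (y : ZMod P) =
      e₁ f' t + (up t y' : ZMod P) * e₂ f' t + (y' : ZMod P))
    (h5 : e₃ f = e₃ f') (h6 : e₃ g = e₃ g') (h7 : y % 3 = y' % 3) :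
    y = y' ∧ (μ ≤ y + 1 → f = f') ∧ (y ≤ μ + 1 → g = g') := by
  -- an alignment of `(μ, y)` gives `y = y'`
  have top : ∀ y y' g g' : ℕ, y ≤ Y → y' ≤ Y → μ + 2 ≤ y →
      (∀ t, e₁ g t + (up t μ : ZMod P) * e₂ g t = e₁ g' t + (up t μ : ZMod P) * e₂ g' t) →
      (∀ t, e₁ g t + (lo t y : ZMod P) * e₂ g t + (y : ZMod P) =
        e₁ g' t + (lo t y' : ZMod P) * e₂ g' t + (y' : ZMod P)) → y = y' := by
    intro y y' g g' hy hy' h h1 h3
    obtain ⟨t, ht⟩ := meet (lt_of_le_of_lt hy hJ) h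
    refine (force hP (up_le hμ t) (lo_le hy' t) hy hy' (he g' t) ?_).2
    have a1 := h1 t
    have a3 := h3 t
    rw [← ht] at a3
    linear_combination a1 - a3
  have bot : ∀ y y' f f' : ℕ, y ≤ Y → y' ≤ Y → y + 2 ≤ μ →
      (∀ t, e₁ f t + (lo t μ : ZMod P) * e₂ f t = e₁ f' t + (lo t μ : ZMod P) * e₂ f' t) →
      (∀ t, e₁ f t + (up t y : ZMod P) * e₂ f t + (y : ZMod P) =
        e₁ f' t + (up t y' : ZMod P) * e₂ f' t + (y' : ZMod P)) → y = y' := by
    intro y y' f f' hy hy' h h2 h4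
    obtain ⟨t, ht⟩ := meet (lt_of_le_of_lt hμ hJ) h
    refine (force hP (lo_le hμ t) (up_le hy' t) hy hy' (he f' t) ?_).2
    have a2 := h2 t
    have a4 := h4 t
    rw [ht] at a4
    linear_combination a2 - a4
  have hyy : y = y' := by
    by_cases c1 : μ + 2 ≤ y
    · exact top y y' g g' hy hy' c1 h1 h3
    by_cases c2 : y + 2 ≤ μ
    · exact bot y y' f f' hy hy' c2 h2 h4
    by_cases c3 : μ + 2 ≤ y'
    · exact (top y' y g' g hy' hy c3 (fun t => (h1 t).symm) (fun t => (h3 t).symm)).symm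
    by_cases c4 : y' + 2 ≤ μ
    · exact (bot y' y f' f hy' hy c4 (fun t => (h2 t).symm) (fun t => (h4 t).symm)).symm
    omega
  refine ⟨hyy, ?_, ?_⟩
  · intro h
    subst hyy
    have hs : ∀ t, e₁ f t = e₁ f' t ∧ e₂ f t = e₂ f' t := fun t =>
      solve hP (lo_le hμ t) (up_le hy t) (not_meet h t).symm (h2 t) (by simpa using h4 t)
    exact hinj f f' hf hf' (funext fun t => (hs t).1) (funext fun t => (hs t).2) h5
  · intro h
    subst hyy
    have hs : ∀ t, e₁ g t = e₁ g' t ∧ e₂ g t = e₂ g' t := fun t =>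
      solve hP (up_le hμ t) (lo_le hy t) (not_meet h t) (h1 t) (by simpa using h3 t)
    exact hinj g g' hg hg' (funext fun t => (hs t).1) (funext fun t => (hs t).2) h6

end Pool.Agent.H411R2.Cyc
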