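import Mathlib

set_option autoImplicit false

namespace Pool.Agent.H411R2.Cyc

/-- The distance between the vertices `u` and `v` of the cycle `C_i`, whose vertices are
`0, 1, …, i - 1` in cyclic order: the length of the shorter of the two paths joining them. -/
def cycDist (i : ℕ) (u v : Fin i) : ℕ :=
  min (max u.val v.val - min u.val v.val) (i - (max u.val v.val - min u.val v.val))

/-- `φ` is a distance labeling of `C_3, …, C_n`: some function `d'` of two labels gives the
distance of any two vertices of the same cycle. -/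
def IsDistanceLabeling (n : ℕ) {L : Type} (φ : (i : ℕ) → Fin i → L) : Prop :=
  ∃ d' : L → L → ℤ, ∀ i : ℕ, 3 ≤ i → i ≤ n → ∀ u v : Fin i,
    d' (φ i u) (φ i v) = (cycDist i u v : ℤ)

/-- The set of labels that `φ` uses on `C_3, …, C_n`. -/
def usedLabels (n : ℕ) {L : Type} (φ : (i : ℕ) → Fin i → L) : Set L :=
  {x | ∃ i : ℕ, 3 ≤ i ∧ i ≤ n ∧ ∃ u : Fin i, φ i u = x}

/-- `lam n` is the least number of labels used by a distance labeling of `C_3, …, C_n`. -/
noncomputable def lam (n : ℕ) : ℕ :=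
  sInf {m : ℕ | ∃ (L : Type) (φ : (i : ℕ) → Fin i → L),
    IsDistanceLabeling n φ ∧ (usedLabels n φ).ncard = m}

/-- Sanity check: every labeling uses finitely many labels on `C_3, …, C_n`, so that the
`ncard` in the definition of `lam` is the true number of labels. -/
lemma usedLabels_finite (n : ℕ) {L : Type} (φ : (i : ℕ) → Fin i → L) :
    (usedLabels n φ).Finite := by
  have h : usedLabels n φ ⊆ ⋃ i ∈ Finset.range (n + 1), Set.range (φ i) := by
    rintro x ⟨i, _, hi, u, rfl⟩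
    exact Set.mem_biUnion (Finset.mem_coe.2 (Finset.mem_range.2 (by omega))) ⟨u, rfl⟩
  exact Set.Finite.subset (Set.Finite.biUnion (Finset.finite_toSet _)
    (fun i _ => Set.finite_range _)) h

/-! ### Labelings of sets of cycles -/

/-- Two labels have the same distance in all cycles with length in `A`. -/
def Cons (A : Set ℕ) {L : Type} (φ : (i : ℕ) → Fin i → L) : Prop :=
  ∀ i ∈ A, ∀ j ∈ A, ∀ (u v : Fin i) (u' v' : Fin j),
    φ i u = φ j u' → φ i v = φ j v' → cycDist i u v = cycDist j u' v'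

/-- The cycles with length in `A` have a distance labeling with at most `m` labels. -/
def Col (A : Set ℕ) (m : ℕ) : Prop :=
  ∃ (L : Type) (φ : (i : ℕ) → Fin i → L) (F : Finset L),
    (∀ i ∈ A, ∀ u : Fin i, φ i u ∈ F) ∧ Cons A φ ∧ F.card ≤ m

lemma Col.mono {A B : Set ℕ} {m m' : ℕ} (h : Col B m) (hA : A ⊆ B) (hm : m ≤ m') :
    Col A m' := by
  obtain ⟨L, φ, F, h1, h2, h3⟩ := h
  exact ⟨L, φ, F, fun i hi => h1 i (hA hi), fun i hi j hj => h2 i (hA hi) j (hA hj),
    h3.trans hm⟩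

lemma Col.union {A B : Set ℕ} {m m' : ℕ} (h : Col A m) (h' : Col B m') :
    Col (A ∪ B) (m + m') := by
  classical
  obtain ⟨L, φ, F, h1, h2, h3⟩ := h
  obtain ⟨L', φ', F', h1', h2', h3'⟩ := h'
  refine ⟨L ⊕ L', fun i u => if i ∈ A then Sum.inl (φ i u) else Sum.inr (φ' i u),
    F.disjSum F', ?_, ?_, ?_⟩
  · rintro i hi u
    by_cases hA : i ∈ A
    · simp only [hA, if_true]
      exact Finset.inl_mem_disjSum.2 (h1 i hA u)
    · simp only [hA, if_false]
      exact Finset.inr_mem_disjSum.2 (h1' i (hi.resolve_left hA) u)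
  · rintro i hi j hj u v u' v' e1 e2
    by_cases hA : i ∈ A
    · by_cases hA' : j ∈ A
      · simp only [hA, hA', if_true, Sum.inl.injEq] at e1 e2
        exact h2 i hA j hA' u v u' v' e1 e2
      · simp [hA, hA'] at e1
    · by_cases hA' : j ∈ A
      · simp [hA, hA'] at e1
      · simp only [hA, hA', if_false, Sum.inr.injEq] at e1 e2
        exact h2' i (hi.resolve_left hA) j (hj.resolve_left hA') u v u' v' e1 e2
  · rw [Finset.card_disjSum]
    omega

lemma lam_le {n m : ℕ} (h : Col {i | i ≤ n} m) : lam n ≤ m := by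
  classical
  obtain ⟨L, φ, F, h1, h2, h3⟩ := h
  have hd : IsDistanceLabeling n φ := by
    refine ⟨fun x y => if hp : ∃ p : (Σ i : ℕ, Fin i × Fin i), p.1 ≤ n ∧ φ p.1 p.2.1 = x ∧
      φ p.1 p.2.2 = y then (cycDist hp.choose.1 hp.choose.2.1 hp.choose.2.2 : ℤ) else 0, ?_⟩
    intro i _ hi u v
    have hp : ∃ p : (Σ i : ℕ, Fin i × Fin i), p.1 ≤ n ∧ φ p.1 p.2.1 = φ i u ∧
      φ p.1 p.2.2 = φ i v := ⟨⟨i, u, v⟩, hi, rfl, rfl⟩
    simp only
    rw [dif_pos hp]
    have hs := hp.choose_spec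
    exact_mod_cast h2 _ hs.1 _ hi _ _ _ _ hs.2.1 hs.2.2
  have hl : lam n ≤ (usedLabels n φ).ncard := Nat.sInf_le ⟨L, φ, hd, rfl⟩
  refine hl.trans (le_trans ?_ h3)
  rw [← Set.ncard_coe_finset]
  refine Set.ncard_le_ncard ?_ (Finset.finite_toSet _)
  rintro x ⟨i, _, hi, u, rfl⟩
  exact Finset.mem_coe.2 (h1 i hi u)

lemma col_small (m : ℕ) : Col {i | i < m} (m * m) := by
  refine ⟨ℕ × ℕ, fun i u => (i, u.val), Finset.range m ×ˢ Finset.range m, ?_, ?_, ?_⟩
  · rintro i hi u
    have hi' : i < m := hi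
    have := u.isLt
    simp only [Finset.mem_product, Finset.mem_range]
    omega
  · rintro i hi j hj u v u' v' e1 e2
    simp only [Prod.mk.injEq] at e1 e2
    obtain ⟨rfl, e1⟩ := e1
    obtain ⟨_, e2⟩ := e2
    rw [Fin.val_inj] at e1 e2
    rw [e1, e2]
  · simp

end Pool.Agent.H411R2.Cyc
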