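import Pool.Agent.H411R2.CycA
import Pool.Agent.H411R2.CycDefs

set_option autoImplicit false

namespace Pool.Agent.H411R2.Cyc

/-- The labels: those of the first half and those of the second half of a cycle. -/
abbrev Lab (P J : ℕ) : Type :=
  (ℕ × (Fin J × Fin 2 → ZMod P) × (Fin J × Fin 2 → ZMod P) × ℕ) ⊕
    (ℕ × (Fin J × Fin 2 → ZMod P) × (Fin J × Fin 2 → ZMod P) × ℕ × ℕ)

/-- The label of the vertex at position `p` of the first half. -/
def labR {P J : ℕ} (m₀ w : ℕ) (e₁ e₂ : ℕ → Fin J × Fin 2 → ZMod P) (e₃ : ℕ → ℕ) (i p : ℕ) :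
    Lab P J :=
  Sum.inl (p,
    (fun t => e₁ (i / m₀ % m₀) t + (up t (p / w + 1) : ZMod P) * e₂ (i / m₀ % m₀) t),
    (fun t => e₁ (i % m₀) t + (lo t (p / w + 1) : ZMod P) * e₂ (i % m₀) t),
    e₃ (i % m₀))

/-- The label of the vertex at the coordinate `p` of the second half. -/
def labL {P J : ℕ} (m₀ w : ℕ) (e₁ e₂ : ℕ → Fin J × Fin 2 → ZMod P) (e₃ : ℕ → ℕ) (i p : ℕ) :
    Lab P J :=
  Sum.inr (p,
    (fun t => e₁ (i / m₀ % m₀) t +
      (lo t (i / (m₀ * m₀) + 1 - p / w) : ZMod P) * e₂ (i / m₀ % m₀) t +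
      ((i / (m₀ * m₀) + 1 - p / w : ℕ) : ZMod P)),
    (fun t => e₁ (i % m₀) t +
      (up t (i / (m₀ * m₀) + 1 - p / w) : ZMod P) * e₂ (i % m₀) t +
      ((i / (m₀ * m₀) + 1 - p / w : ℕ) : ZMod P)),
    e₃ (i / m₀ % m₀), (i / (m₀ * m₀) + 1 - p / w) % 3)

/-- The labeling. -/
def lab {P J : ℕ} (m₀ w : ℕ) (e₁ e₂ : ℕ → Fin J × Fin 2 → ZMod P) (e₃ : ℕ → ℕ) (i : ℕ)
    (u : Fin i) : Lab P J :=
  if u.val < i / 2 then labR m₀ w e₁ e₂ e₃ i u.val
  else labL m₀ w e₁ e₂ e₃ i (i - 1 - u.val + m₀ - i % m₀)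

/-- The digits of the length of a cycle. -/
lemma digits {m₀ i : ℕ} (hm : 0 < m₀) :
    i = i / (m₀ * m₀) * (m₀ * m₀) + i / m₀ % m₀ * m₀ + i % m₀ ∧ i / m₀ % m₀ < m₀ ∧
      i % m₀ < m₀ := by
  refine ⟨?_, Nat.mod_lt _ hm, Nat.mod_lt _ hm⟩
  have h1 := Nat.div_add_mod i m₀
  have h2 := Nat.div_add_mod (i / m₀) m₀
  rw [Nat.div_div_eq_div_mul] at h2
  nlinarith

/-- The geometry of the pair of the vertex at position `p` of the first half and of the vertex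
with the coordinate `p'` of the second half, in the cycle of length `i`. -/
lemma geom {m₀ w i p p' q Q g f : ℕ} (hm : 2 ≤ m₀) (hw : 2 * w = m₀ * m₀)
    (hi : i = Q * (m₀ * m₀) + g * m₀ + f) (hg : g < m₀) (hf : f < m₀)
    (hp : p < i / 2) (hq : q ≤ i - 1 - i / 2) (hp' : p' = q + m₀ - f) :
    p / w ≤ Q ∧ p' / w ≤ Q + 1 ∧
    (p / w + 1 + 2 ≤ Q + 1 - p' / w → 2 * (p + q + 1) ≤ i) ∧
    (Q + 1 - p' / w + 2 ≤ p / w + 1 → i ≤ 2 * (p + q + 1)) := by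
  have hw0 : 0 < w := by nlinarith
  have hmw : m₀ ≤ w := by nlinarith
  have hgm : g * m₀ + m₀ ≤ m₀ * m₀ := by nlinarith
  have hQ : Q * (m₀ * m₀) = 2 * (Q * w) := by rw [← hw]; ring
  have b1 : p / w * w ≤ p := Nat.div_mul_le_self p w
  have b2 : p < p / w * w + w := by
    have := Nat.div_add_mod p w
    have := Nat.mod_lt p hw0
    nlinarith
  have b3 : p' / w * w ≤ p' := Nat.div_mul_le_self p' w
  have b4 : p' < p' / w * w + w := by
    have := Nat.div_add_mod p' w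
    have := Nat.mod_lt p' hw0
    nlinarith
  have c1 : p / w ≤ Q := by
    by_contra h
    have : (Q + 1) * w ≤ p / w * w := Nat.mul_le_mul_right _ (by omega)
    rw [add_mul] at this
    omega
  have c2 : p' / w ≤ Q + 1 := by
    by_contra h
    have : (Q + 2) * w ≤ p' / w * w := Nat.mul_le_mul_right _ (by omega)
    rw [add_mul] at this
    omega
  refine ⟨c1, c2, ?_, ?_⟩
  · intro h
    have h1 : (p / w + p' / w + 2) * w ≤ Q * w := Nat.mul_le_mul_right _ (by omega)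
    rw [add_mul, add_mul] at h1
    omega
  · intro h
    have h1 : (Q + 2) * w ≤ (p / w + p' / w) * w := Nat.mul_le_mul_right _ (by omega)
    rw [add_mul, add_mul] at h1
    omega

/-- Consistency for the cross pairs. -/
lemma cross {P Y J m₀ w : ℕ} [Fact P.Prime] (hm : 2 ≤ m₀) (hw : 2 * w = m₀ * m₀)
    (hP : Y + 3 < P) (hJ : Y < 2 ^ J)
    {e₁ e₂ : ℕ → Fin J × Fin 2 → ZMod P} {e₃ : ℕ → ℕ}
    (he : ∀ f t, Good P Y (e₂ f t))
    (hinj : ∀ f f', f < m₀ → f' < m₀ → e₁ f = e₁ f' → e₂ f = e₂ f' → e₃ f = e₃ f' → f = f')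
    {i j : ℕ} (hi : i / (m₀ * m₀) + 1 ≤ Y) (hj : j / (m₀ * m₀) + 1 ≤ Y)
    {p p₂ q q₂ : ℕ} (hp : p < i / 2) (hq : q ≤ i - 1 - i / 2)
    (hp₂ : p₂ < j / 2) (hq₂ : q₂ ≤ j - 1 - j / 2)
    (e : labR m₀ w e₁ e₂ e₃ i p = labR m₀ w e₁ e₂ e₃ j p₂)
    (e' : labL m₀ w e₁ e₂ e₃ i (q + m₀ - i % m₀) = labL m₀ w e₁ e₂ e₃ j (q₂ + m₀ - j % m₀)) :
    min (p + q + 1) (i - (p + q + 1)) = min (p₂ + q₂ + 1) (j - (p₂ + q₂ + 1)) := by
  obtain ⟨di, hgi, hfi⟩ := digits (i := i) (m₀ := m₀) (by omega)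
  obtain ⟨dj, hgj, hfj⟩ := digits (i := j) (m₀ := m₀) (by omega)
  obtain ⟨p', hp'⟩ : ∃ p', p' = q + m₀ - i % m₀ := ⟨_, rfl⟩
  obtain ⟨p₂', hp₂'⟩ : ∃ p', p' = q₂ + m₀ - j % m₀ := ⟨_, rfl⟩
  have gi := geom hm hw di hgi hfi hp hq hp'
  have gj := geom hm hw dj hgj hfj hp₂ hq₂ hp₂'
  rw [← hp', ← hp₂'] at e'
  unfold labR at e
  unfold labL at e'
  simp only [Sum.inl.injEq, Sum.inr.injEq, Prod.mk.injEq] at e e'
  obtain ⟨rfl, e1, e2, e5⟩ := e
  obtain ⟨e0, e3, e4, e6, e7⟩ := e'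
  subst e0
  generalize i / (m₀ * m₀) = Q at *
  generalize j / (m₀ * m₀) = Q' at *
  generalize i / m₀ % m₀ = g at *
  generalize j / m₀ % m₀ = g' at *
  generalize i % m₀ = f at *
  generalize j % m₀ = f' at *
  generalize p / w = a at *
  generalize p' / w = b at *
  obtain ⟨ga, gb, gc, gd⟩ := gi
  obtain ⟨ga', gb', gc', gd'⟩ := gj
  have key := decode (m₀ := m₀) hP hJ he hinj (μ := a + 1) (y := Q + 1 - b)
    (y' := Q' + 1 - b) (by omega) (by omega) (by omega) hfi hfj hgi hgj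
    (fun t => congrFun e1 t) (fun t => congrFun e2 t) (fun t => congrFun e3 t)
    (fun t => congrFun e4 t) e5 e6 e7
  obtain ⟨k1, k2, k3⟩ := key
  have hQQ : Q = Q' := by omega
  subst hQQ
  clear e1 e2 e3 e4 e5 e6 e7 he hinj
  generalize Q * (m₀ * m₀) = Qm at *
  by_cases c1 : a + 1 + 2 ≤ Q + 1 - b
  · have hff := k2 (by omega)
    have x1 := gc c1
    have x2 := gc' c1
    subst hff
    clear gc gc' gd gd' k1 k2 k3 di dj
    have hqq : q = q₂ := by omega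
    subst hqq
    rw [min_eq_left (by omega), min_eq_left (by omega)]
  · have hgg := k3 (by omega)
    subst hgg
    generalize g * m₀ = gm at *
    by_cases c2 : Q + 1 - b + 2 ≤ a + 1
    · have x1 := gd c2
      have x2 := gd' c2
      clear gc gc' gd gd' k1 k2 k3
      rw [min_eq_right (by omega), min_eq_right (by omega)]
      omega
    · have hff := k2 (by omega)
      subst hff
      have hqq : q = q₂ := by omega
      subst hqq
      rw [← dj] at di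
      rw [di]

end Pool.Agent.H411R2.Cyc
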