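import Pool.Agent.H411R2.CycB

set_option autoImplicit false

namespace Pool.Agent.H411R2.Cyc

lemma labR_ne_labL {P J m₀ w : ℕ} {e₁ e₂ : ℕ → Fin J × Fin 2 → ZMod P} {e₃ : ℕ → ℕ}
    {i j p q : ℕ} : labR m₀ w e₁ e₂ e₃ i p ≠ labL m₀ w e₁ e₂ e₃ j q := by
  unfold labR labL
  simp

lemma labR_pos {P J m₀ w : ℕ} {e₁ e₂ : ℕ → Fin J × Fin 2 → ZMod P} {e₃ : ℕ → ℕ}
    {i j p q : ℕ} (h : labR m₀ w e₁ e₂ e₃ i p = labR m₀ w e₁ e₂ e₃ j q) : p = q := by
  unfold labR at h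
  simp only [Sum.inl.injEq, Prod.mk.injEq] at h
  exact h.1

lemma labL_pos {P J m₀ w : ℕ} {e₁ e₂ : ℕ → Fin J × Fin 2 → ZMod P} {e₃ : ℕ → ℕ}
    {i j p q : ℕ} (h : labL m₀ w e₁ e₂ e₃ i p = labL m₀ w e₁ e₂ e₃ j q) : p = q := by
  unfold labL at h
  simp only [Sum.inr.injEq, Prod.mk.injEq] at h
  exact h.1

lemma lab_cons {P Y J m₀ w : ℕ} [Fact P.Prime] (hm : 2 ≤ m₀) (hw : 2 * w = m₀ * m₀)
    (hP : Y + 3 < P) (hJ : Y < 2 ^ J)
    {e₁ e₂ : ℕ → Fin J × Fin 2 → ZMod P} {e₃ : ℕ → ℕ}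
    (he : ∀ f t, Good P Y (e₂ f t))
    (hinj : ∀ f f', f < m₀ → f' < m₀ → e₁ f = e₁ f' → e₂ f = e₂ f' → e₃ f = e₃ f' → f = f') :
    Cons {i | i < Y * (m₀ * m₀)} (lab (P := P) (J := J) m₀ w e₁ e₂ e₃) := by
  intro i hi j hj u v u' v' e e'
  have hmm : 0 < m₀ * m₀ := by positivity
  have hi' : i / (m₀ * m₀) + 1 ≤ Y := (Nat.div_lt_iff_lt_mul hmm).2 hi
  have hj' : j / (m₀ * m₀) + 1 ≤ Y := (Nat.div_lt_iff_lt_mul hmm).2 hj
  have hfi : i % m₀ < m₀ := Nat.mod_lt _ (by omega)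
  have hfj : j % m₀ < m₀ := Nat.mod_lt _ (by omega)
  have hu := u.isLt
  have hv := v.isLt
  have hu' := u'.isLt
  have hv' := v'.isLt
  unfold lab at e e'
  unfold cycDist
  by_cases c1 : u.val < i / 2
  · rw [if_pos c1] at e
    by_cases c1' : u'.val < j / 2
    swap
    · rw [if_neg c1'] at e
      exact absurd e labR_ne_labL
    rw [if_pos c1'] at e
    by_cases c2 : v.val < i / 2
    · rw [if_pos c2] at e'
      by_cases c2' : v'.val < j / 2
      swap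
      · rw [if_neg c2'] at e'
        exact absurd e' labR_ne_labL
      rw [if_pos c2'] at e'
      have := labR_pos e
      have := labR_pos e'
      omega
    · rw [if_neg c2] at e'
      by_cases c2' : v'.val < j / 2
      · rw [if_pos c2'] at e'
        exact absurd e'.symm labR_ne_labL
      rw [if_neg c2'] at e'
      have key := cross hm hw hP hJ he hinj hi' hj' c1 (q := i - 1 - v.val) (by omega) c1'
        (q₂ := j - 1 - v'.val) (by omega) e e'
      omega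
  · rw [if_neg c1] at e
    by_cases c1' : u'.val < j / 2
    · rw [if_pos c1'] at e
      exact absurd e.symm labR_ne_labL
    rw [if_neg c1'] at e
    by_cases c2 : v.val < i / 2
    · rw [if_pos c2] at e'
      by_cases c2' : v'.val < j / 2
      swap
      · rw [if_neg c2'] at e'
        exact absurd e' labR_ne_labL
      rw [if_pos c2'] at e'
      have key := cross hm hw hP hJ he hinj hi' hj' c2 (q := i - 1 - u.val) (by omega) c2'
        (q₂ := j - 1 - u'.val) (by omega) e' e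
      omega
    · rw [if_neg c2] at e'
      by_cases c2' : v'.val < j / 2
      · rw [if_pos c2'] at e'
        exact absurd e'.symm labR_ne_labL
      rw [if_neg c2'] at e'
      have h1 := labL_pos e
      have h2 := labL_pos e'
      generalize i % m₀ = f at *
      generalize j % m₀ = f' at *
      omega

theorem col_main {P Y J m₀ w m₁ : ℕ} [Fact P.Prime] (hm : 2 ≤ m₀) (hw : 2 * w = m₀ * m₀)
    (hP : Y + 3 < P) (hJ : Y < 2 ^ J)
    {e₁ e₂ : ℕ → Fin J × Fin 2 → ZMod P} {e₃ : ℕ → ℕ}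
    (he : ∀ f t, Good P Y (e₂ f t)) (he₃ : ∀ f, e₃ f < m₁)
    (hinj : ∀ f f', f < m₀ → f' < m₀ → e₁ f = e₁ f' → e₂ f = e₂ f' → e₃ f = e₃ f' → f = f') :
    Col {i | i < Y * (m₀ * m₀)}
      ((4 * (Y * (m₀ * m₀)) + 3 * m₀) * (P ^ (2 * J) * P ^ (2 * J) * m₁)) := by
  classical
  refine ⟨Lab P J, lab m₀ w e₁ e₂ e₃,
    (Finset.range (Y * (m₀ * m₀)) ×ˢ Finset.univ ×ˢ Finset.univ ×ˢ Finset.range m₁).disjSum
      (Finset.range (Y * (m₀ * m₀) + m₀) ×ˢ Finset.univ ×ˢ Finset.univ ×ˢ Finset.range m₁ ×ˢ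
        Finset.range 3), ?_, lab_cons hm hw hP hJ he hinj, ?_⟩
  · intro i hi u
    have hi' : i < Y * (m₀ * m₀) := hi
    have hu := u.isLt
    unfold lab
    split_ifs
    · unfold labR
      rw [Finset.inl_mem_disjSum]
      simp only [Finset.mem_product, Finset.mem_range, Finset.mem_univ, true_and]
      exact ⟨by omega, he₃ _⟩
    · unfold labL
      rw [Finset.inr_mem_disjSum]
      simp only [Finset.mem_product, Finset.mem_range, Finset.mem_univ, true_and]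
      exact ⟨by omega, he₃ _, Nat.mod_lt _ (by norm_num)⟩
  · rw [Finset.card_disjSum]
    simp only [Finset.card_product, Finset.card_range, Finset.card_univ, Fintype.card_fun,
      ZMod.card, Fintype.card_prod, Fintype.card_fin]
    have : J * 2 = 2 * J := by ring
    rw [this]
    apply le_of_eq
    ring

/-- The encoding of the numbers below `m₀` exists. -/
lemma exists_enc {P Y J m₀ m₁ : ℕ} [Fact P.Prime] (S : Finset (ZMod P))
    (hS : ∀ z ∈ S, Good P Y z) (hm₁ : 0 < m₁) (hS0 : 0 < S.card)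
    (hcard : m₀ ≤ P ^ (2 * J) * S.card ^ (2 * J) * m₁) :
    ∃ (e₁ e₂ : ℕ → Fin J × Fin 2 → ZMod P) (e₃ : ℕ → ℕ),
      (∀ f t, Good P Y (e₂ f t)) ∧ (∀ f, e₃ f < m₁) ∧
      (∀ f f', f < m₀ → f' < m₀ → e₁ f = e₁ f' → e₂ f = e₂ f' → e₃ f = e₃ f' → f = f') := by
  classical
  obtain ⟨ι⟩ : Nonempty (Fin m₀ ↪
      (Fin J × Fin 2 → ZMod P) × (Fin J × Fin 2 → S) × Fin m₁) := by
    apply Function.Embedding.nonempty_of_card_le
    simp only [Fintype.card_fin, Fintype.card_prod, Fintype.card_fun, ZMod.card,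
      Fintype.card_coe]
    have : J * 2 = 2 * J := by ring
    rw [this, ← mul_assoc]
    exact hcard
  obtain ⟨z₀, hz₀⟩ := Finset.card_pos.1 hS0
  refine ⟨fun f => if h : f < m₀ then (ι ⟨f, h⟩).1 else fun _ => z₀,
    fun f t => if h : f < m₀ then ((ι ⟨f, h⟩).2.1 t : ZMod P) else z₀,
    fun f => if h : f < m₀ then (ι ⟨f, h⟩).2.2.val else 0, ?_, ?_, ?_⟩
  · intro f t
    by_cases h : f < m₀
    · simp only [h, dif_pos]
      exact hS _ ((ι ⟨f, h⟩).2.1 t).2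
    · simp only [h, dif_neg, not_false_eq_true]
      exact hS _ hz₀
  · intro f
    by_cases h : f < m₀
    · simp only [h, dif_pos]
      exact (ι ⟨f, h⟩).2.2.isLt
    · simp only [h, dif_neg, not_false_eq_true]
      exact hm₁
  · intro f f' hf hf' h1 h2 h3
    simp only [hf, hf', dif_pos] at h1 h2 h3
    have : ι ⟨f, hf⟩ = ι ⟨f', hf'⟩ := by
      refine Prod.ext h1 (Prod.ext ?_ (Fin.ext h3))
      funext t
      exact Subtype.ext (congrFun h2 t)
    simpa using ι.injective this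

/-- The bound for a fixed number `Y` of blocks and a fixed prime `P`. -/
lemma col_par {P Y J a G : ℕ} [Fact P.Prime] (hP : Y + 3 < P) (hJ : Y < 2 ^ J) (hY : 1 ≤ Y)
    (hG : P = G + (Y + 3) * (2 * Y + 1)) (hG0 : 0 < G)
    (hPG : P ^ (2 * J) ≤ 2 * G ^ (2 * J)) (ha : P ^ (2 * J) * G ^ (2 * J) ≤ 2 * a) :
    Col {i | i < Y * (2 * a * (2 * a))} (28 * Y * (2 * a) ^ 3) := by
  obtain ⟨S, hS, hSc⟩ := exists_good P Y hP
  have hGS : G ≤ S.card := by omega
  have hP0 : 0 < P := by omega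
  obtain ⟨W, hW⟩ : ∃ W, W = P ^ (2 * J) * G ^ (2 * J) := ⟨_, rfl⟩
  have hW0 : 0 < W := by rw [hW]; positivity
  rw [← hW] at ha
  have hm1 : 2 * a < W * (2 * a / W + 1) := Nat.lt_mul_div_succ _ hW0
  obtain ⟨e₁, e₂, e₃, h1, h2, h3⟩ := exists_enc (J := J) (m₀ := 2 * a) (m₁ := 2 * a / W + 1) S hS
    (Nat.succ_pos _) (by omega) (by
      refine hm1.le.trans (Nat.mul_le_mul_right _ ?_)
      rw [hW]
      exact Nat.mul_le_mul_left _ (Nat.pow_le_pow_left hGS _))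
  have ha1 : 1 ≤ a := by omega
  refine (col_main (w := 2 * a * a) (by omega) (by ring) hP hJ h1 h2 h3).mono
    (fun i hi => hi) ?_
  have k1 : P ^ (2 * J) * P ^ (2 * J) * (2 * a / W + 1) ≤ 4 * (2 * a) := by
    have k2 : P ^ (2 * J) * P ^ (2 * J) ≤ 2 * W := by
      rw [hW]
      calc P ^ (2 * J) * P ^ (2 * J) ≤ P ^ (2 * J) * (2 * G ^ (2 * J)) :=
            Nat.mul_le_mul_left _ hPG
        _ = 2 * (P ^ (2 * J) * G ^ (2 * J)) := by ring
    have k3 : W * (2 * a / W) ≤ 2 * a := Nat.mul_div_le _ _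
    calc P ^ (2 * J) * P ^ (2 * J) * (2 * a / W + 1) ≤ 2 * W * (2 * a / W + 1) :=
          Nat.mul_le_mul_right _ k2
      _ = 2 * (W * (2 * a / W)) + 2 * W := by ring
      _ ≤ 4 * (2 * a) := by omega
  have k4 : 4 * (Y * (2 * a * (2 * a))) + 3 * (2 * a) ≤ 7 * (Y * (2 * a * (2 * a))) := by
    have : 2 * a ≤ Y * (2 * a * (2 * a)) := by
      calc 2 * a = 1 * (2 * a * 1) := by ring
        _ ≤ Y * (2 * a * (2 * a)) := Nat.mul_le_mul hY (Nat.mul_le_mul_left _ (by omega))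
    omega
  calc _ ≤ 7 * (Y * (2 * a * (2 * a))) * (4 * (2 * a)) := Nat.mul_le_mul k4 k1
    _ = 28 * Y * (2 * a) ^ 3 := by ring

end Pool.Agent.H411R2.Cyc
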