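import Pool.Agent.H411R2.CycC

set_option autoImplicit false

namespace Pool.Agent.H411R2.Cyc

lemma exists_par (j : ℕ) : ∃ P G : ℕ, P.Prime ∧ 2 ^ j + 3 < P ∧
    P = G + (2 ^ j + 3) * (2 * 2 ^ j + 1) ∧ 0 < G ∧
    P ^ (2 * (j + 1)) ≤ 2 * G ^ (2 * (j + 1)) ∧ P ≤ 2 ^ (3 * j + 7) := by
  obtain ⟨Y, hY⟩ : ∃ Y, Y = 2 ^ j := ⟨_, rfl⟩
  have hY1 : 1 ≤ Y := by rw [hY]; exact Nat.one_le_two_pow
  rw [← hY]
  obtain ⟨P, hP, h1, h2⟩ := Nat.exists_prime_lt_and_le_two_mul (48 * (j + 1) * Y ^ 2)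
    (by positivity)
  have hx : (Y + 3) * (2 * Y + 1) ≤ 12 * Y ^ 2 := by nlinarith
  have hB : 48 * Y ^ 2 ≤ 48 * (j + 1) * Y ^ 2 := Nat.mul_le_mul_right _ (by omega)
  have hYY : Y ≤ Y ^ 2 := Nat.le_self_pow (by norm_num) _
  obtain ⟨x, hx'⟩ : ∃ x, x = (Y + 3) * (2 * Y + 1) := ⟨_, rfl⟩
  rw [← hx'] at hx ⊢
  have hxP : 4 * (j + 1) * x ≤ P := by
    calc 4 * (j + 1) * x ≤ 4 * (j + 1) * (12 * Y ^ 2) := Nat.mul_le_mul_left _ hx
      _ = 48 * (j + 1) * Y ^ 2 := by ring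
      _ ≤ P := h1.le
  have hxP' : 4 * x ≤ P := by
    refine le_trans ?_ hxP
    exact Nat.mul_le_mul_right _ (by omega)
  have hP0 : 0 < P := hP.pos
  refine ⟨P, P - x, hP, by omega, by omega, by omega, ?_, ?_⟩
  · have hPr : (0 : ℝ) < P := by exact_mod_cast hP0
    have hb : 1 + ((2 * (j + 1) : ℕ) : ℝ) * (-(x / P : ℝ)) ≤
        (1 + -(x / P : ℝ)) ^ (2 * (j + 1)) := by
      apply one_add_mul_le_pow
      have : (x : ℝ) / P ≤ 1 := by
        rw [div_le_one hPr]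
        exact_mod_cast (by omega : x ≤ P)
      linarith
    have hc : (1 : ℝ) / 2 ≤ 1 + ((2 * (j + 1) : ℕ) : ℝ) * (-(x / P : ℝ)) := by
      have h3 : ((2 * (j + 1) : ℕ) : ℝ) * (x / P : ℝ) ≤ 1 / 2 := by
        rw [mul_div_assoc', div_le_iff₀ hPr]
        have : ((4 * (j + 1) * x : ℕ) : ℝ) ≤ P := by exact_mod_cast hxP
        push_cast at this ⊢
        linarith
      linarith
    have hG : ((P - x : ℕ) : ℝ) = P * (1 + -(x / P : ℝ)) := by
      rw [Nat.cast_sub (by omega)]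
      field_simp
      ring
    have hfin : (P : ℝ) ^ (2 * (j + 1)) ≤ 2 * ((P - x : ℕ) : ℝ) ^ (2 * (j + 1)) := by
      rw [hG, mul_pow]
      have hpos : (0 : ℝ) < (P : ℝ) ^ (2 * (j + 1)) := by positivity
      nlinarith [hb, hc]
    exact_mod_cast hfin
  · have hj : j + 1 ≤ 2 ^ j := Nat.lt_two_pow_self
    calc P ≤ 2 * (48 * (j + 1) * Y ^ 2) := h2
      _ = 96 * (j + 1) * Y ^ 2 := by ring
      _ ≤ 2 ^ 7 * 2 ^ j * (2 ^ j) ^ 2 := by
          rw [hY]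
          exact Nat.mul_le_mul_right _ (Nat.mul_le_mul (by norm_num) hj)
      _ = 2 ^ (3 * j + 7) := by
          rw [← pow_mul, ← pow_add, ← pow_add]
          congr 1
          ring

lemma lam_le_par (j n a : ℕ) (ha : (2 ^ (3 * j + 7)) ^ (4 * (j + 1)) ≤ 2 * a)
    (hn : n < 2 ^ j * (2 * a * (2 * a))) : lam n ≤ 28 * 2 ^ j * (2 * a) ^ 3 := by
  obtain ⟨P, G, hP, h1, h2, h3, h4, h5⟩ := exists_par j
  have : Fact P.Prime := ⟨hP⟩
  apply lam_le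
  refine (col_par (P := P) (Y := 2 ^ j) (J := j + 1) (a := a) (G := G) h1
    (by rw [pow_succ]; have : 0 < 2 ^ j := by positivity
        omega) Nat.one_le_two_pow h2 h3 h4 ?_).mono ?_ le_rfl
  · refine le_trans ?_ ha
    have hGP : G ≤ P := by omega
    calc P ^ (2 * (j + 1)) * G ^ (2 * (j + 1)) ≤ P ^ (2 * (j + 1)) * P ^ (2 * (j + 1)) :=
          Nat.mul_le_mul_left _ (Nat.pow_le_pow_left hGP _)
      _ = P ^ (4 * (j + 1)) := by rw [← pow_add]; congr 1; ring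
      _ ≤ _ := Nat.pow_le_pow_left h5 _
  · intro i hi
    have : i ≤ n := hi
    exact lt_of_le_of_lt this hn

lemma rpow_three_half (n : ℕ) : (n : ℝ) ^ (3 / 2 : ℝ) = n * Real.sqrt n := by
  rcases Nat.eq_zero_or_pos n with rfl | hn
  · rw [Nat.cast_zero, Real.zero_rpow (by norm_num), zero_mul]
  · have hn' : (0 : ℝ) < n := by exact_mod_cast hn
    rw [Real.sqrt_eq_rpow, show (3 / 2 : ℝ) = 1 + 1 / 2 by norm_num, Real.rpow_add hn',
      Real.rpow_one]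

/-- The bound with `2 ^ j` blocks. -/
theorem lam_le_pow (j n : ℕ) (hn : 2 ^ (25 * (j + 3) ^ 2) ≤ n) :
    (lam n : ℝ) ≤ 224 * (n * Real.sqrt n) / Real.sqrt (2 ^ j) := by
  obtain ⟨Y, hY⟩ : ∃ Y, Y = 2 ^ j := ⟨_, rfl⟩
  have hY1 : 1 ≤ Y := by rw [hY]; exact Nat.one_le_two_pow
  obtain ⟨W, hW⟩ : ∃ W, W = (2 ^ (3 * j + 7)) ^ (4 * (j + 1)) := ⟨_, rfl⟩
  have hWn : Y * (W * W) ≤ n := by
    refine le_trans ?_ hn
    rw [hY, hW, ← pow_mul, ← pow_add, ← pow_add]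
    apply Nat.pow_le_pow_right (by norm_num)
    nlinarith
  obtain ⟨a, ha⟩ : ∃ a, a = Nat.sqrt (n / (4 * Y)) + 1 := ⟨_, rfl⟩
  have h1 : n < Y * (2 * a * (2 * a)) := by
    have h2 : n / (4 * Y) < a * a := by rw [ha]; exact Nat.lt_succ_sqrt _
    rw [Nat.div_lt_iff_lt_mul (by omega)] at h2
    calc n < a * a * (4 * Y) := h2
      _ = Y * (2 * a * (2 * a)) := by ring
  have h3 : W ≤ 2 * a := by
    by_contra hcon
    have h4 : 2 * a * (2 * a) ≤ W * W := Nat.mul_le_mul (by omega) (by omega)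
    have := Nat.mul_le_mul_left Y h4
    omega
  have h5 : lam n ≤ 28 * Y * (2 * a) ^ 3 := by
    rw [hY]
    exact lam_le_par j n a (by rw [← hW]; exact h3) (by rw [← hY]; exact h1)
  have hYr : (0 : ℝ) < Y := by exact_mod_cast hY1
  obtain ⟨z, hz⟩ : ∃ z : ℝ, z = Real.sqrt (n / Y) := ⟨_, rfl⟩
  have hz0 : 0 ≤ z := by rw [hz]; exact Real.sqrt_nonneg _
  have hz2 : z ^ 2 = n / Y := by rw [hz]; exact Real.sq_sqrt (by positivity)
  have hW2 : 2 ≤ W := by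
    rw [hW, ← pow_mul]
    exact Nat.le_self_pow (by positivity) 2
  have hzW : (2 : ℝ) ≤ z := by
    have h6 : (Y : ℝ) * (2 * 2) ≤ n := by
      have : Y * (2 * 2) ≤ n := le_trans (Nat.mul_le_mul_left _ (Nat.mul_le_mul hW2 hW2)) hWn
      exact_mod_cast this
    rw [hz]
    apply Real.le_sqrt_of_sq_le
    rw [le_div_iff₀ hYr]
    linarith
  have haz : (2 * a : ℝ) ≤ 2 * z := by
    have h6 : (Nat.sqrt (n / (4 * Y)) : ℝ) ≤ z / 2 := by
      have h7 : (Nat.sqrt (n / (4 * Y)) : ℝ) ^ 2 ≤ (z / 2) ^ 2 := by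
        have h8 : ((Nat.sqrt (n / (4 * Y)) ^ 2 : ℕ) : ℝ) ≤ ((n / (4 * Y) : ℕ) : ℝ) := by
          exact_mod_cast Nat.sqrt_le' _
        have h9 : ((n / (4 * Y) : ℕ) : ℝ) ≤ (n : ℝ) / ((4 * Y : ℕ) : ℝ) := Nat.cast_div_le
        push_cast at h8 h9
        have h10 : (n : ℝ) / (4 * Y) = (z / 2) ^ 2 := by
          rw [div_pow, hz2]
          field_simp
          norm_num
        linarith
      exact le_of_sq_le_sq h7 (by positivity)
    have h7 : (a : ℝ) = (Nat.sqrt (n / (4 * Y)) : ℝ) + 1 := by rw [ha]; push_cast; ring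
    rw [h7]
    linarith
  have h6 : (lam n : ℝ) ≤ 28 * Y * (2 * z) ^ 3 := by
    have h7 : (lam n : ℝ) ≤ 28 * Y * (2 * a) ^ 3 := by exact_mod_cast h5
    refine h7.trans ?_
    apply mul_le_mul_of_nonneg_left _ (by positivity)
    exact pow_le_pow_left₀ (by positivity) haz 3
  have hYs : (Y : ℝ) = 2 ^ j := by rw [hY]; push_cast; ring
  rw [← hYs]
  have hsY : 0 < Real.sqrt Y := Real.sqrt_pos.2 hYr
  have hsY2 : Real.sqrt Y ^ 2 = Y := Real.sq_sqrt hYr.le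
  have hzs : z * Real.sqrt Y = Real.sqrt n := by
    rw [hz, ← Real.sqrt_mul (by positivity)]
    congr 1
    field_simp
  rw [le_div_iff₀ hsY]
  calc (lam n : ℝ) * Real.sqrt Y ≤ 28 * Y * (2 * z) ^ 3 * Real.sqrt Y :=
        mul_le_mul_of_nonneg_right h6 hsY.le
    _ = 224 * (Y * z ^ 2 * (z * Real.sqrt Y)) := by ring
    _ = 224 * (n * Real.sqrt n) := by
        rw [hz2, hzs]
        field_simp

end Pool.Agent.H411R2.Cyc
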